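import Pool.Agent.Helper63_PSS.BKF
import Pool.Agent.Helper6_PSS.BKI

/-!
# Squad PSS, row BQX (helper70): existence of the Brauer quotient
-/

set_option autoImplicit false

open scoped BigOperators

noncomputable section

namespace Pool.Agent.PSS.S0.H70

section

variable (R : Type) {V A : Type} [CommRing R] [CommGroup V] [Ring A] [Algebra R A]

theorem fx_om (α : V →* A) (Q : Subgroup V) (v : V) : α v ∈ FxR (cw R α) Q := by
  intro u _
  rw [H6.cw_apply, ← map_mul, ← map_mul, mul_left_comm, mul_inv_cancel, mul_one]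

theorem fx_one (α : V →* A) (Q : Subgroup V) : (1 : A) ∈ FxR (cw R α) Q := by
  have h := fx_om R α Q 1
  rwa [map_one] at h

/-- the centraliser of `α Q` -/
def cenS (α : V →* A) (Q : Subgroup V) : Subalgebra R A where
  carrier := {a | a ∈ FxR (cw R α) Q}
  mul_mem' := by
    intro a b ha hb
    exact H6.fx_mul α ha hb
  add_mem' := by
    intro a b ha hb
    exact (FxR (cw R α) Q).add_mem ha hb
  algebraMap_mem' := by
    intro r
    show algebraMap R A r ∈ FxR (cw R α) Q
    rw [Algebra.algebraMap_eq_smul_one]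
    exact (FxR (cw R α) Q).smul_mem r (fx_one R α Q)

theorem mem_cenS (α : V →* A) (Q : Subgroup V) (a : A) :
    a ∈ cenS R α Q ↔ a ∈ FxR (cw R α) Q := Iff.rfl

/-- the Brauer kernel as an ideal of the centraliser -/
def bkI (α : V →* A) (Q : Subgroup V) : Ideal (cenS R α Q) where
  carrier := {a | (a : A) ∈ BKR (cw R α) Q}
  add_mem' := by
    intro a b ha hb
    exact (BKR (cw R α) Q).add_mem ha hb
  zero_mem' := (BKR (cw R α) Q).zero_mem
  smul_mem' := by
    intro c x hx
    exact (H6.bki R V A α Q c c.2 x hx).1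

theorem mem_bkI (α : V →* A) (Q : Subgroup V) (a : cenS R α Q) :
    a ∈ bkI R α Q ↔ (a : A) ∈ BKR (cw R α) Q := Iff.rfl

instance (α : V →* A) (Q : Subgroup V) : (bkI R α Q).IsTwoSided where
  mul_mem_of_left := by
    intro a b ha
    exact (H6.bki R V A α Q b b.2 a ha).2

open Classical in
/-- the Brauer map -/
def brm (α : V →* A) (Q : Subgroup V) (a : A) : cenS R α Q ⧸ bkI R α Q :=
  if h : a ∈ FxR (cw R α) Q then Ideal.Quotient.mk (bkI R α Q) ⟨a, h⟩ else 0

theorem brm_of (α : V →* A) (Q : Subgroup V) (a : A) (h : a ∈ FxR (cw R α) Q) :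
    brm R α Q a = Ideal.Quotient.mk (bkI R α Q) ⟨a, h⟩ := dif_pos h

end

theorem bqx : BqxStmt := by
  intro R V A _ _ _ _ α Q
  refine ⟨cenS R α Q ⧸ bkI R α Q, inferInstance, inferInstance,
    { toFun := fun v => Ideal.Quotient.mk (bkI R α Q) ⟨α v, fx_om R α Q v⟩
      map_one' := ?_
      map_mul' := ?_ }, brm R α Q, ?_⟩
  · rw [← map_one (Ideal.Quotient.mk (bkI R α Q))]
    exact congrArg _ (Subtype.ext (map_one α))
  · intro u v
    rw [← map_mul]
    exact congrArg _ (Subtype.ext (map_mul α u v))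
  · constructor
    · intro a ha b hb
      rw [brm_of R α Q a ha, brm_of R α Q b hb,
        brm_of R α Q (a + b) ((FxR (cw R α) Q).add_mem ha hb), ← map_add]
      rfl
    · intro r a ha
      rw [brm_of R α Q a ha, brm_of R α Q (r • a) ((FxR (cw R α) Q).smul_mem r ha)]
      rfl
    · rw [brm_of R α Q 1 (fx_one R α Q)]
      exact map_one (Ideal.Quotient.mk (bkI R α Q))
    · intro a ha b hb
      rw [brm_of R α Q a ha, brm_of R α Q b hb,
        brm_of R α Q (a * b) (H6.fx_mul α ha hb), ← map_mul]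
      rfl
    · intro a ha
      rw [brm_of R α Q a ha, Ideal.Quotient.eq_zero_iff_mem]
      rfl
    · intro y
      obtain ⟨a, rfl⟩ := Ideal.Quotient.mk_surjective y
      exact ⟨a.1, a.2, brm_of R α Q a.1 a.2⟩
    · intro v
      exact brm_of R α Q (α v) (fx_om R α Q v)

end Pool.Agent.PSS.S0.H70
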