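import Pool.Agent.Helper20_PSS.FPX
import Pool.Agent.Helper6_PSS.BKI

/-!
# Squad PSS, row SFQ (helper70): the frame of `A(Q)` from the points of type `θ`
-/

set_option autoImplicit false

open scoped BigOperators

noncomputable section

namespace Pool.Agent.PSS.S0.H70

open Pool.Agent.PFC (tw IsTv)

namespace SFQ

variable (R : Type) {V A : Type} [CommRing R] [CommGroup V] [Ring A] [Algebra R A]

theorem cw_apply (α : V →* A) (u : V) (a : A) : cw R α u a = α u * (a * α u⁻¹) := rfl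

theorem bw_apply (α : V →* A) (g : V × V) (a : A) : bw R α g a = α g.1 * (a * α g.2⁻¹) := rfl

theorem om_fx (α : V →* A) (Q : Subgroup V) (v : V) : α v ∈ FxR (cw R α) Q := by
  intro u _
  rw [cw_apply, ← map_mul, ← map_mul, mul_left_comm, mul_inv_cancel, mul_one]

/-- the twisted diagonal -/
def jt (θ : MulAut V) : V →* V × V where
  toFun := fun q => (q, θ⁻¹ q)
  map_one' := by
    rw [map_one]
    rfl
  map_mul' := by
    intro p q
    rw [map_mul]
    rfl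

theorem jt_apply (θ : MulAut V) (q : V) : jt θ q = (q, θ⁻¹ q) := rfl

theorem om_n' (α : V →* A) (θ : MulAut V) (n n' : A) (h1 : n * n' = 1) (h2 : n' * n = 1)
    (h3 : ∀ u, n * α u = α (θ u) * n) (u : V) : α u * n' = n' * α (θ u) := by
  calc α u * n' = (n' * n) * α u * n' := by rw [h2, one_mul]
    _ = n' * (n * α u) * n' := by simp only [mul_assoc]
    _ = n' * (α (θ u) * n) * n' := by rw [h3]
    _ = n' * α (θ u) * (n * n') := by simp only [mul_assoc]
    _ = n' * α (θ u) := by rw [h1, mul_one]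

theorem th_inv (θ : MulAut V) (q : V) : θ (θ⁻¹ q) = q := MulAut.apply_inv_self V θ q

/-- the Brauer kernel of the twisted diagonal -/
theorem bk_n' (α : V →* A) (Q : Subgroup V) (θ : MulAut V) (n n' : A) (h1 : n * n' = 1)
    (h2 : n' * n = 1) (h3 : ∀ u, n * α u = α (θ u) * n) (m : A)
    (hm : m ∈ BKR (bw R α) (Q.map (jt θ))) : m * n' ∈ BKR (cw R α) Q := by
  classical
  have hn := om_n' α θ n n' h1 h2 h3
  have hn2 : ∀ q : V, α (θ⁻¹ q)⁻¹ * n' = n' * α q⁻¹ := by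
    intro q
    rw [hn, map_inv, th_inv]
  have key : ∀ (x : V) (a : A), bw R α (jt θ x) a * n' = cw R α x (a * n') := by
    intro x a
    rw [bw_apply, cw_apply, jt_apply]
    show α x * (a * α (θ⁻¹ x)⁻¹) * n' = α x * (a * n' * α x⁻¹)
    calc α x * (a * α (θ⁻¹ x)⁻¹) * n' = α x * (a * (α (θ⁻¹ x)⁻¹ * n')) := by
          simp only [mul_assoc]
      _ = α x * (a * (n' * α x⁻¹)) := by rw [hn2]
      _ = α x * (a * n' * α x⁻¹) := by simp only [mul_assoc]
  have hle : BKR (bw R α) (Q.map (jt θ)) ≤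
      (BKR (cw R α) Q).comap (LinearMap.mulRight R n') := by
    refine Submodule.span_le.2 ?_
    rintro _ ⟨P', S, m, hlt, hTv, hm, rfl⟩
    show (∑ x ∈ S, bw R α x m) * n' ∈ BKR (cw R α) Q
    have hS : ∀ x ∈ S, x = jt θ x.1 ∧ x.1 ∈ Q := by
      intro x hx
      obtain ⟨q, hq, rfl⟩ := hTv.1 x hx
      exact ⟨rfl, hq⟩
    have hinj : Set.InjOn (Prod.fst : V × V → V) (S : Set (V × V)) := by
      intro x hx y hy hxy
      rw [(hS x hx).1, (hS y hy).1, hxy]
    refine Submodule.subset_span ⟨P'.comap (jt θ), S.image Prod.fst, m * n', ?_, ?_, ?_, ?_⟩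
    · refine lt_of_le_of_ne ?_ ?_
      · intro q hq
        obtain ⟨q', hq', h⟩ := hlt.le hq
        have h' : q' = q := congrArg Prod.fst h
        exact h' ▸ hq'
      · intro h
        refine absurd ?_ (not_le_of_gt hlt)
        rintro _ ⟨q, hq, rfl⟩
        have hq' : q ∈ P'.comap (jt θ) := by
          rw [h]
          exact hq
        exact hq'
    · refine ⟨?_, ?_⟩
      · intro s hs
        obtain ⟨x, hx, rfl⟩ := Finset.mem_image.1 hs
        exact (hS x hx).2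
      · intro p hp
        obtain ⟨s, ⟨hs1, hs2⟩, hs3⟩ := hTv.2 (jt θ p) ⟨p, hp, rfl⟩
        refine ⟨s.1, ⟨Finset.mem_image.2 ⟨s, hs1, rfl⟩, ?_⟩, ?_⟩
        · show jt θ (s.1⁻¹ * p) ∈ P'
          rw [map_mul, map_inv, ← (hS s hs1).1]
          exact hs2
        · rintro t ⟨ht1, ht2⟩
          obtain ⟨x, hx, rfl⟩ := Finset.mem_image.1 ht1
          have ht3 : jt θ (x.1⁻¹ * p) ∈ P' := ht2
          rw [map_mul, map_inv, ← (hS x hx).1] at ht3
          rw [hs3 x ⟨hx, ht3⟩]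
    · intro q hq
      rw [← key, hm _ hq]
    · rw [Finset.sum_mul, Finset.sum_image hinj]
      refine Finset.sum_congr rfl fun x hx => ?_
      rw [← key, ← (hS x hx).1]
  exact hle hm

/-- the Brauer map as a linear map on the centraliser -/
def bl {B : Type} [Ring B] [Algebra R B] (α : V →* A) (Q : Subgroup V) (αB : V →* B) (β : A → B)
    (h : IsBQ R α Q αB β) : FxR (cw R α) Q →ₗ[R] B where
  toFun := fun a => β a
  map_add' := fun a b => h.add a a.2 b b.2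
  map_smul' := fun r a => h.smul r a a.2

end SFQ

open SFQ

theorem sfq : SfqStmt := by
  intro R V A B Ω _ _ _ _ _ _ _ _ _ α Q αB β lam lamB b d θ n n' _ hSF hB hlam h1 h2 h3
  classical
  have hn := om_n' α θ n n' h1 h2 h3
  have hn2 : ∀ q : V, α (θ⁻¹ q)⁻¹ * n' = n' * α q⁻¹ := by
    intro q
    rw [hn, map_inv, th_inv]
  have hn3 : ∀ v : V, α v⁻¹ * n' = n' * α (θ v)⁻¹ := by
    intro v
    rw [hn, map_inv]
  have hn4 : ∀ q : V, n * α (θ⁻¹ q) = α q * n := by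
    intro q
    rw [h3, th_inv]
  have eb : ∀ (g : V × V) (ω : Ω), b (g • ω) = α g.1 * b ω * α g.2⁻¹ := hSF.eb
  have ed : ∀ (g : V × V) (ω : Ω), d (g • ω) = α g.2 * d ω * α g.1⁻¹ := hSF.ed
  have hbn : ∀ ω ∈ OQt Q θ Ω, b ω * n' ∈ FxR (cw R α) Q := by
    intro ω hω q hq
    have e1 := eb (q, θ⁻¹ q) ω
    rw [hω q hq] at e1
    show α q * (b ω * n' * α q⁻¹) = b ω * n'
    calc α q * (b ω * n' * α q⁻¹) = α q * b ω * (n' * α q⁻¹) := by simp only [mul_assoc]
      _ = α q * b ω * (α (θ⁻¹ q)⁻¹ * n') := by rw [hn2]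
      _ = α q * b ω * α (θ⁻¹ q)⁻¹ * n' := by simp only [mul_assoc]
      _ = b ω * n' := by rw [← e1]
  have hdn : ∀ ω ∈ OQt Q θ Ω, n * d ω ∈ FxR (cw R α) Q := by
    intro ω hω q hq
    have e1 := ed (q, θ⁻¹ q) ω
    rw [hω q hq] at e1
    show α q * (n * d ω * α q⁻¹) = n * d ω
    calc α q * (n * d ω * α q⁻¹) = (α q * n) * d ω * α q⁻¹ := by simp only [mul_assoc]
      _ = (n * α (θ⁻¹ q)) * d ω * α q⁻¹ := by rw [hn4]
      _ = n * (α (θ⁻¹ q) * d ω * α q⁻¹) := by simp only [mul_assoc]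
      _ = n * d ω := by rw [← e1]
  have hmul : ∀ a ∈ FxR (cw R α) Q, ∀ a' ∈ FxR (cw R α) Q, a * a' ∈ FxR (cw R α) Q :=
    fun a ha a' ha' => H6.fx_mul α ha ha'
  refine ⟨fun ω hω => ⟨hbn ω hω, hdn ω hω⟩, ?_⟩
  constructor
  · intro x y
    obtain ⟨a, ha, rfl⟩ := hB.surj x
    obtain ⟨a', ha', rfl⟩ := hB.surj y
    rw [← hB.mul a ha a' ha', ← hB.mul a' ha' a ha, hlam _ (hmul a ha a' ha'),
      hlam _ (hmul a' ha' a ha), hSF.sym]
  · intro g ω
    show β (b (g • (ω : Ω)) * n') = αB g.1 * β (b ω * n') * αB (θ g.2)⁻¹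
    rw [← hB.om, ← hB.om, ← hB.mul _ (om_fx R α Q _) _ (hbn ω ω.2),
      ← hB.mul _ (hmul _ (om_fx R α Q _) _ (hbn ω ω.2)) _ (om_fx R α Q _), eb]
    congr 1
    calc α g.1 * b ω * α g.2⁻¹ * n' = α g.1 * b ω * (α g.2⁻¹ * n') := by simp only [mul_assoc]
      _ = α g.1 * b ω * (n' * α (θ g.2)⁻¹) := by rw [hn3]
      _ = α g.1 * (b ω * n') * α (θ g.2)⁻¹ := by simp only [mul_assoc]
  · intro g ω
    show β (n * d (g • (ω : Ω))) = αB (θ g.2) * β (n * d ω) * αB g.1⁻¹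
    rw [← hB.om, ← hB.om, ← hB.mul _ (om_fx R α Q _) _ (hdn ω ω.2),
      ← hB.mul _ (hmul _ (om_fx R α Q _) _ (hdn ω ω.2)) _ (om_fx R α Q _), ed]
    congr 1
    calc n * (α g.2 * d ω * α g.1⁻¹) = (n * α g.2) * d ω * α g.1⁻¹ := by simp only [mul_assoc]
      _ = (α (θ g.2) * n) * d ω * α g.1⁻¹ := by rw [h3]
      _ = α (θ g.2) * (n * d ω) * α g.1⁻¹ := by simp only [mul_assoc]
  · intro z
    obtain ⟨a, ha, rfl⟩ := hB.surj z
    have hq : ∀ q ∈ Q, α q⁻¹ * a * α q = a := by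
      intro q hq
      have h := ha q⁻¹ (Q.inv_mem hq)
      rw [cw_apply, inv_inv] at h
      rw [mul_assoc]
      exact h
    let g : Ω → A := fun ω => lam (d ω * (a * n)) • b ω
    have hg : ∀ h ∈ Q.map (jt θ), ∀ κ, g (h • κ) = bw R α h (g κ) := by
      rintro _ ⟨q, hqQ, rfl⟩ κ
      have e1 : lam (d (jt θ q • κ) * (a * n)) = lam (d κ * (a * n)) := by
        rw [ed, jt_apply]
        show lam (α (θ⁻¹ q) * d κ * α q⁻¹ * (a * n)) = lam (d κ * (a * n))
        calc lam (α (θ⁻¹ q) * d κ * α q⁻¹ * (a * n))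
            = lam (α (θ⁻¹ q) * (d κ * α q⁻¹ * (a * n))) := by simp only [mul_assoc]
          _ = lam ((d κ * α q⁻¹ * (a * n)) * α (θ⁻¹ q)) := hSF.sym _ _
          _ = lam (d κ * (α q⁻¹ * a * (n * α (θ⁻¹ q)))) := by simp only [mul_assoc]
          _ = lam (d κ * (α q⁻¹ * a * (α q * n))) := by rw [hn4]
          _ = lam (d κ * ((α q⁻¹ * a * α q) * n)) := by simp only [mul_assoc]
          _ = lam (d κ * (a * n)) := by rw [hq q hqQ]
      show lam (d (jt θ q • κ) * (a * n)) • b (jt θ q • κ) =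
        bw R α (jt θ q) (lam (d κ * (a * n)) • b κ)
      rw [e1, map_smul, eb, bw_apply, mul_assoc]
    have hK : ∀ κ, κ ∈ Finset.univ.filter (fun ω : Ω => ω ∈ OQt Q θ Ω) ↔
        ∀ h ∈ Q.map (jt θ), h • κ = κ := by
      intro κ
      rw [Finset.mem_filter]
      constructor
      · rintro ⟨_, h⟩ _ ⟨q, hqQ, rfl⟩
        exact h q hqQ
      · intro h
        exact ⟨Finset.mem_univ _, fun q hqQ => h _ ⟨q, hqQ, rfl⟩⟩
    have hF := Pool.Agent.PSS.H20.fpx R (V × V) A Ω (bw R α) (Q.map (jt θ)) g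
      (Finset.univ.filter (fun ω : Ω => ω ∈ OQt Q θ Ω)) hg hK
    have hs : ∑ κ, g κ = a * n := hSF.fr (a * n)
    rw [hs] at hF
    have hF2 := bk_n' R α Q θ n n' h1 h2 h3 _ hF
    rw [Finset.sum_subtype (p := fun ω => ω ∈ OQt Q θ Ω) _ (fun x => by
      rw [Finset.mem_filter]; exact ⟨fun h => h.2, fun h => ⟨Finset.mem_univ _, h⟩⟩)] at hF2
    have hterm : ∀ ω : OQt Q θ Ω, g ω * n' = lam (n * d ω * a) • (b ω * n') := by
      intro ω
      show (lam (d ω * (a * n)) • b ω) * n' = _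
      rw [smul_mul_assoc]
      congr 1
      rw [← mul_assoc, hSF.sym (d ω * a) n, mul_assoc]
    have hsum : (∑ ω : OQt Q θ Ω, g ω) * n' =
        ∑ ω : OQt Q θ Ω, lam (n * d ω * a) • (b ω * n') := by
      rw [Finset.sum_mul]
      exact Finset.sum_congr rfl fun ω _ => hterm ω
    have hF3 : a - ∑ ω : OQt Q θ Ω, lam (n * d ω * a) • (b ω * n') ∈ BKR (cw R α) Q := by
      have e : (a * n - ∑ ω : OQt Q θ Ω, g ω) * n' =
          a - ∑ ω : OQt Q θ Ω, lam (n * d ω * a) • (b ω * n') := by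
        rw [sub_mul, hsum, mul_assoc, h1, mul_one]
      rw [← e]
      exact hF2
    -- the linear map
    have hmem : ∀ ω : OQt Q θ Ω, lam (n * d ω * a) • (b ω * n') ∈ FxR (cw R α) Q :=
      fun ω => Submodule.smul_mem _ _ (hbn ω ω.2)
    have hsm : ∑ ω : OQt Q θ Ω, lam (n * d ω * a) • (b ω * n') ∈ FxR (cw R α) Q :=
      Submodule.sum_mem _ fun ω _ => hmem ω
    have hβ : β (∑ ω : OQt Q θ Ω, lam (n * d ω * a) • (b ω * n')) =
        ∑ ω : OQt Q θ Ω, lam (n * d ω * a) • β (b ω * n') := by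
      have h5 := map_sum (bl R α Q αB β hB)
        (fun ω : OQt Q θ Ω => (⟨lam (n * d ω * a) • (b ω * n'), hmem ω⟩ : FxR (cw R α) Q))
        Finset.univ
      have h6 : bl R α Q αB β hB (∑ ω : OQt Q θ Ω,
          (⟨lam (n * d ω * a) • (b ω * n'), hmem ω⟩ : FxR (cw R α) Q)) =
          β (∑ ω : OQt Q θ Ω, lam (n * d ω * a) • (b ω * n')) := by
        show β ((∑ ω : OQt Q θ Ω,
          (⟨lam (n * d ω * a) • (b ω * n'), hmem ω⟩ : FxR (cw R α) Q) : FxR (cw R α) Q) : A) = _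
        rw [Submodule.coe_sum]
      rw [← h6, h5]
      refine Finset.sum_congr rfl fun ω _ => ?_
      show β (lam (n * d ω * a) • (b ω * n')) = _
      exact hB.smul _ _ (hbn ω ω.2)
    have hsub : a - ∑ ω : OQt Q θ Ω, lam (n * d ω * a) • (b ω * n') ∈ FxR (cw R α) Q :=
      Submodule.sub_mem _ ha hsm
    have h0 : β (a - ∑ ω : OQt Q θ Ω, lam (n * d ω * a) • (b ω * n')) = 0 :=
      (hB.ker _ hsub).2 hF3
    have h7 := hB.add _ hsub _ hsm
    rw [sub_add_cancel, h0, zero_add, hβ] at h7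
    rw [h7]
    refine Finset.sum_congr rfl fun ω _ => ?_
    rw [← hlam _ (hmul _ (hdn ω ω.2) a ha), hB.mul _ (hdn ω ω.2) a ha, ← h7]
  · intro v ω h
    exact hSF.free v ω (congrArg Subtype.val h)

end Pool.Agent.PSS.S0.H70
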