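import Pool.Agent.PSS.StmtsS5

/-!
# Squad PSS, block S5, row NQP (helper70)

The permutation frame of the quotient by a central subgroup.
-/

set_option autoImplicit false

open scoped BigOperators TensorProduct

noncomputable section

namespace Pool.Agent.PSS.S5.H70.Nqp

open Pool.Agent.PSS Pool.Agent.PSS.S5
open Pool.Agent.PFC (tw IsTv Cz)
open Pool.Agent.PFD.D2b (FrR)

section act

variable {V Ω : Type} [CommGroup V] [MulAction (V × V) Ω] (Q : Subgroup V)

/-- the orbits of `Q × 1` -/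
def rel (Ω : Type) [MulAction (V × V) Ω] : Setoid Ω where
  r := fun ω ω' => ∃ q ∈ Q, ((q, 1) : V × V) • ω = ω'
  iseqv :=
    { refl := fun ω => ⟨1, Q.one_mem, one_smul (V × V) ω⟩
      symm := by
        rintro ω _ ⟨q, hq, rfl⟩
        refine ⟨q⁻¹, Q.inv_mem hq, ?_⟩
        rw [smul_smul, Prod.mk_mul_mk, one_mul, inv_mul_cancel]
        exact one_smul (V × V) ω
      trans := by
        rintro ω _ _ ⟨q, hq, rfl⟩ ⟨q', hq', rfl⟩
        refine ⟨q' * q, Q.mul_mem hq' hq, ?_⟩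
        rw [smul_smul, Prod.mk_mul_mk, one_mul] }

/-- the set of orbits -/
def Or (Ω : Type) [MulAction (V × V) Ω] : Type := Quotient (rel Q Ω)

/-- the orbit of a point -/
def mk (ω : Ω) : Or Q Ω := Quotient.mk (rel Q Ω) ω

/-- a point of the orbit -/
def rep (k : Or Q Ω) : Ω := Quotient.out k

theorem mk_rep (k : Or Q Ω) : mk Q (rep Q k) = k := Quotient.out_eq k

theorem mk_eq {ω ω' : Ω} : mk Q ω = mk Q ω' ↔ ∃ q ∈ Q, ((q, 1) : V × V) • ω = ω' :=
  ⟨fun h => Quotient.exact h, fun h => Quotient.sound h⟩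

variable (hq : ∀ (ω : Ω), ∀ q ∈ Q, ((q, q) : V × V) • ω = ω)

include hq in
theorem mk_smul (u v u' v' : V) (hu : u⁻¹ * u' ∈ Q) (hv : v⁻¹ * v' ∈ Q) (ω : Ω) :
    mk Q (((u, v) : V × V) • ω) = mk Q (((u', v') : V × V) • ω) := by
  rw [mk_eq]
  refine ⟨u⁻¹ * u' * (v⁻¹ * v')⁻¹, Q.mul_mem hu (Q.inv_mem hv), ?_⟩
  have h1 := hq (((u, v) : V × V) • ω) (v⁻¹ * v') hv
  calc ((u⁻¹ * u' * (v⁻¹ * v')⁻¹, 1) : V × V) • ((u, v) : V × V) • ω
      = ((u⁻¹ * u' * (v⁻¹ * v')⁻¹, 1) : V × V) • ((v⁻¹ * v', v⁻¹ * v') : V × V) •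
          ((u, v) : V × V) • ω := by rw [h1]
    _ = ((u', v') : V × V) • ω := by
        rw [smul_smul, smul_smul, Prod.mk_mul_mk, Prod.mk_mul_mk]
        have e1 : u⁻¹ * u' * (v⁻¹ * v')⁻¹ * (v⁻¹ * v') * u = u' := by
          rw [inv_mul_cancel_right, mul_comm u⁻¹ u', inv_mul_cancel_right]
        have e2 : 1 * (v⁻¹ * v') * v = v' := by
          rw [one_mul, mul_comm v⁻¹ v', inv_mul_cancel_right]
        rw [e1, e2]

/-- the action of the quotient on the orbits -/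
@[instance_reducible]
def act : MulAction ((V ⧸ Q) × (V ⧸ Q)) (Or Q Ω) where
  smul g k := mk Q (((g.1.out, g.2.out) : V × V) • rep Q k)
  one_smul k := by
    change mk Q ((((1 : V ⧸ Q).out, (1 : V ⧸ Q).out) : V × V) • rep Q k) = k
    have h1 : ((1 : V ⧸ Q).out)⁻¹ * 1 ∈ Q := by
      rw [← QuotientGroup.eq]
      exact QuotientGroup.out_eq' _
    rw [mk_smul Q hq _ _ 1 1 h1 h1]
    rw [show (((1 : V), (1 : V)) : V × V) = 1 from rfl, one_smul, mk_rep]
  mul_smul g h k := by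
    change mk Q ((((g * h).1.out, (g * h).2.out) : V × V) • rep Q k) =
      mk Q (((g.1.out, g.2.out) : V × V) • rep Q (mk Q (((h.1.out, h.2.out) : V × V) • rep Q k)))
    obtain ⟨q, hqq, h1⟩ := (mk_eq Q).1 (mk_rep Q (mk Q (((h.1.out, h.2.out) : V × V) • rep Q k))).symm
    rw [← h1, smul_smul, smul_smul]
    change mk Q ((((g * h).1.out, (g * h).2.out) : V × V) • rep Q k) =
      mk Q (((g.1.out * q * h.1.out, g.2.out * 1 * h.2.out) : V × V) • rep Q k)
    refine mk_smul Q hq _ _ _ _ ?_ ?_ _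
    · rw [← QuotientGroup.eq, QuotientGroup.out_eq']
      rw [QuotientGroup.mk_mul, QuotientGroup.mk_mul, QuotientGroup.out_eq',
        QuotientGroup.out_eq', (QuotientGroup.eq_one_iff q).2 hqq, mul_one]
      rfl
    · rw [← QuotientGroup.eq, QuotientGroup.out_eq']
      rw [QuotientGroup.mk_mul, QuotientGroup.mk_mul, QuotientGroup.out_eq',
        QuotientGroup.out_eq', QuotientGroup.mk_one, mul_one]
      rfl

theorem act_mk (u v : V) (ω : Ω) :
    (act Q hq).smul ((u : V ⧸ Q), (v : V ⧸ Q)) (mk Q ω) = mk Q (((u, v) : V × V) • ω) := by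
  change mk Q ((((u : V ⧸ Q).out, (v : V ⧸ Q).out) : V × V) • rep Q (mk Q ω)) = _
  obtain ⟨q, hqq, h1⟩ := (mk_eq Q).1 (mk_rep Q (mk Q ω)).symm
  rw [← h1, smul_smul, Prod.mk_mul_mk]
  refine mk_smul Q hq _ _ _ _ ?_ ?_ _
  · rw [← QuotientGroup.eq, QuotientGroup.mk_mul, QuotientGroup.out_eq',
      (QuotientGroup.eq_one_iff q).2 hqq, mul_one]
  · rw [← QuotientGroup.eq, QuotientGroup.mk_mul, QuotientGroup.out_eq',
      QuotientGroup.mk_one, mul_one]

end act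

theorem nqp : NqpStmt := by
  intro F V A A' Ω _ _ _ _ _ _ _ _ _ α b c Q _ α' p hQ hF hst
  classical
  obtain ⟨hb, hc, hsum⟩ := hF
  have hq : ∀ (ω : Ω), ∀ q ∈ Q, ((q, q) : V × V) • ω = ω := by
    intro ω q hqq
    obtain ⟨S, hS, h1⟩ := hst ω
    have h2 : ((q, q) : V × V) ∈ MulAction.stabilizer (V × V) ω := by
      rw [h1]
      exact ⟨q, hS hqq, rfl⟩
    exact h2
  have hfr : ∀ (ω : Ω) (q : V), ((q, 1) : V × V) • ω = ω → q = 1 := by
    intro ω q h
    obtain ⟨S, hS, h1⟩ := hst ω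
    have h2 : ((q, 1) : V × V) ∈ MulAction.stabilizer (V × V) ω := h
    rw [h1] at h2
    obtain ⟨s, hs, h3⟩ := h2
    have e1 : s = q := congrArg Prod.fst h3
    have e2 : s = 1 := congrArg Prod.snd h3
    rw [← e1, e2]
  set σ : A := ∑ q : Q, α q with hσ
  have σl : ∀ q ∈ Q, α q * σ = σ := by
    intro q hqq
    rw [hσ, Finset.mul_sum]
    refine Fintype.sum_equiv (Equiv.mulLeft (⟨q, hqq⟩ : Q)) _ _ ?_
    intro r
    rw [Equiv.coe_mulLeft, Subgroup.coe_mul, map_mul]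
  have hpq : ∀ q ∈ Q, p (α q) = 1 := by
    intro q hqq
    rw [hQ.cov, (QuotientGroup.eq_one_iff q).2 hqq, map_one]
  -- the functionals
  have hker : ∀ a a' : A, p a = p a' → σ * a = σ * a' := by
    intro a a' h
    have h1 : p (a - a') = 0 := by rw [map_sub, h, sub_self]
    have h2 := (hQ.ker _).1 h1
    rw [mul_sub, sub_eq_zero] at h2
    exact h2
  let inv : A' → A := Function.surjInv hQ.sur
  have hinv : ∀ a', p (inv a') = a' := Function.surjInv_eq hQ.sur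
  let c' : Or Q Ω → (A' →ₗ[F] F) := fun k =>
    { toFun := fun a' => c (rep Q k) (σ * inv a')
      map_add' := by
        intro x y
        rw [← map_add, ← mul_add]
        exact congrArg _ (hker _ _ (by rw [map_add, hinv, hinv, hinv]))
      map_smul' := by
        intro r x
        rw [RingHom.id_apply, ← map_smul, ← mul_smul_comm]
        exact congrArg _ (hker _ _ (by rw [map_smul, hinv, hinv])) }
  have hc'p : ∀ (k : Or Q Ω) (a : A), c' k (p a) = c (rep Q k) (σ * a) := by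
    intro k a
    exact congrArg _ (hker _ _ (by rw [hinv]))
  have hcq : ∀ (ω : Ω), ∀ q ∈ Q, ∀ a, c (((q, 1) : V × V) • ω) a = c ω (α q⁻¹ * a) := by
    intro ω q hqq a
    have h1 := hc ((q, 1) : V × V) ω (α q⁻¹ * a)
    have h2 : bw F α ((q, 1) : V × V) (α q⁻¹ * a) = a := by
      change α q * (α q⁻¹ * a * α 1⁻¹) = a
      rw [inv_one, map_one, mul_one, ← mul_assoc, ← map_mul, mul_inv_cancel, map_one, one_mul]
    rw [h2] at h1
    exact h1
  have hc'm : ∀ (ω : Ω) (a : A), c' (mk Q ω) (p a) = c ω (σ * a) := by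
    intro ω a
    rw [hc'p]
    obtain ⟨q, hqq, h1⟩ := (mk_eq Q).1 (mk_rep Q (mk Q ω)).symm
    rw [← h1, hcq _ q hqq, ← mul_assoc, σl _ (Q.inv_mem hqq)]
  have hb'm : ∀ ω : Ω, p (b (rep Q (mk Q ω))) = p (b ω) := by
    intro ω
    obtain ⟨q, hqq, h1⟩ := (mk_eq Q).1 (mk_rep Q (mk Q ω)).symm
    rw [← h1, hb]
    change p (α q * (b ω * α 1⁻¹)) = p (b ω)
    rw [inv_one, map_one, mul_one, map_mul, hpq q hqq, one_mul]
  have hfin : Finite (Or Q Ω) := inferInstanceAs (Finite (Quotient (rel Q Ω)))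
  have hfty : Fintype (Or Q Ω) := Fintype.ofFinite _
  let iac : MulAction ((V ⧸ Q) × (V ⧸ Q)) (Or Q Ω) := act Q hq
  have hsm : ∀ (u v : V) (ω : Ω), ((((u : V ⧸ Q), (v : V ⧸ Q)) : (V ⧸ Q) × (V ⧸ Q)) • mk Q ω) =
      mk Q (((u, v) : V × V) • ω) := fun u v ω => act_mk Q hq u v ω
  refine ⟨Or Q Ω, inferInstance, inferInstance, fun k => p (b (rep Q k)), c', ⟨?_, ?_, ?_⟩, ?_⟩
  · rintro ⟨u', v'⟩ k
    obtain ⟨u, rfl⟩ := QuotientGroup.mk_surjective u'
    obtain ⟨v, rfl⟩ := QuotientGroup.mk_surjective v'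
    obtain ⟨ω, rfl⟩ : ∃ ω, mk Q ω = k := ⟨rep Q k, mk_rep Q k⟩
    rw [hsm]
    change p (b (rep Q (mk Q (((u, v) : V × V) • ω)))) =
      α' (u : V ⧸ Q) * (p (b (rep Q (mk Q ω))) * α' (v : V ⧸ Q)⁻¹)
    rw [hb'm, hb'm, hb]
    change p (α u * (b ω * α v⁻¹)) = α' (u : V ⧸ Q) * (p (b ω) * α' (v : V ⧸ Q)⁻¹)
    rw [map_mul, map_mul, hQ.cov, hQ.cov, QuotientGroup.mk_inv]
  · rintro ⟨u', v'⟩ k n
    obtain ⟨u, rfl⟩ := QuotientGroup.mk_surjective u'
    obtain ⟨v, rfl⟩ := QuotientGroup.mk_surjective v'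
    obtain ⟨ω, rfl⟩ : ∃ ω, mk Q ω = k := ⟨rep Q k, mk_rep Q k⟩
    obtain ⟨a, rfl⟩ := hQ.sur n
    have h1 : bw F α' (((u : V ⧸ Q), (v : V ⧸ Q)) : (V ⧸ Q) × (V ⧸ Q)) (p a) =
        p (bw F α ((u, v) : V × V) a) := by
      change α' (u : V ⧸ Q) * (p a * α' (v : V ⧸ Q)⁻¹) = p (α u * (a * α v⁻¹))
      rw [map_mul, map_mul, hQ.cov, hQ.cov, QuotientGroup.mk_inv]
    rw [hsm, h1, hc'm, hc'm]
    have h2 : σ * bw F α ((u, v) : V × V) a = bw F α ((u, v) : V × V) (σ * a) := by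
      change σ * (α u * (a * α v⁻¹)) = α u * (σ * a * α v⁻¹)
      have h3 : σ * α u = α u * σ := by
        rw [hσ, Finset.sum_mul, Finset.mul_sum]
        refine Finset.sum_congr rfl fun q _ => ?_
        rw [← map_mul, ← map_mul, mul_comm]
      rw [← mul_assoc, h3, mul_assoc, mul_assoc σ]
    rw [h2, hc]
  · intro n
    obtain ⟨a, rfl⟩ := hQ.sur n
    have h1 : p a = ∑ ω, c ω a • p (b ω) := by
      conv_lhs => rw [← hsum a]
      rw [map_sum]
      exact Finset.sum_congr rfl fun ω _ => map_smul _ _ _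
    have h10 := Finset.sum_fiberwise_of_maps_to (s := (Finset.univ : Finset Ω))
      (t := (Finset.univ : Finset (Or Q Ω)))
      (g := fun ω => mk Q ω) (fun _ _ => Finset.mem_univ _) (fun ω => c ω a • p (b ω))
    refine Eq.trans ?_ (h10.trans h1.symm)
    refine Finset.sum_congr rfl fun k _ => ?_
    have h2 : ∑ ω ∈ Finset.univ.filter (fun ω => mk Q ω = k), c ω a • p (b ω) =
        ∑ q : Q, c (((q.1, 1) : V × V) • rep Q k) a • p (b (((q.1, 1) : V × V) • rep Q k)) := by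
      symm
      refine Finset.sum_bij (fun q _ => ((q.1, 1) : V × V) • rep Q k) ?_ ?_ ?_ ?_
      · intro q _
        rw [Finset.mem_filter]
        refine ⟨Finset.mem_univ _, ?_⟩
        rw [← mk_rep Q k]
        symm
        rw [mk_eq]
        refine ⟨q.1, q.2, ?_⟩
        rw [mk_rep Q k]
      · intro q _ q' _ h
        have h3 : ((q'.1⁻¹ * q.1, 1) : V × V) • rep Q k = rep Q k := by
          have h4 : ((q'.1⁻¹ * q.1, 1) : V × V) = ((q'.1⁻¹, 1) : V × V) * ((q.1, 1) : V × V) := by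
            rw [Prod.mk_mul_mk, one_mul]
          rw [h4, mul_smul, h, smul_smul, Prod.mk_mul_mk, inv_mul_cancel, one_mul]
          exact one_smul _ _
        have h5 := hfr _ _ h3
        apply Subtype.ext
        rw [inv_mul_eq_one] at h5
        exact h5.symm
      · intro ω hω
        rw [Finset.mem_filter] at hω
        obtain ⟨q, hqq, h3⟩ := (mk_eq Q).1 ((mk_rep Q k).trans hω.2.symm)
        exact ⟨⟨q, hqq⟩, Finset.mem_univ _, h3⟩
      · intro q _
        rfl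
    rw [h2, hc'p]
    have h3 : ∀ q : Q, c (((q.1, 1) : V × V) • rep Q k) a • p (b (((q.1, 1) : V × V) • rep Q k)) =
        c (rep Q k) (α (q⁻¹ : Q) * a) • p (b (rep Q k)) := by
      intro q
      rw [hcq _ q.1 q.2, hb]
      congr 1
      change p (α q.1 * (b (rep Q k) * α 1⁻¹)) = p (b (rep Q k))
      rw [inv_one, map_one, mul_one, map_mul, hpq q.1 q.2, one_mul]
    rw [Finset.sum_congr rfl (fun q _ => h3 q), ← Finset.sum_smul, ← map_sum, ← Finset.sum_mul]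
    have h4 : ∑ q : Q, α (q⁻¹ : Q) = σ := by
      rw [hσ]
      exact Fintype.sum_equiv (Equiv.inv Q) _ _ (fun _ => rfl)
    rw [h4]
  · intro k
    obtain ⟨ω, rfl⟩ : ∃ ω, mk Q ω = k := ⟨rep Q k, mk_rep Q k⟩
    obtain ⟨S, hS, h1⟩ := hst ω
    refine ⟨(), S.map (QuotientGroup.mk' Q), ?_⟩
    ext ⟨u', v'⟩
    obtain ⟨u, rfl⟩ := QuotientGroup.mk_surjective u'
    obtain ⟨v, rfl⟩ := QuotientGroup.mk_surjective v'
    rw [MulAction.mem_stabilizer_iff, hsm]
    constructor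
    · intro h
      obtain ⟨q, hqq, h2⟩ := (mk_eq Q).1 h
      rw [smul_smul, Prod.mk_mul_mk, one_mul] at h2
      have h3 : ((q * u, v) : V × V) ∈ MulAction.stabilizer (V × V) ω := h2
      rw [h1] at h3
      obtain ⟨s, hs, h4⟩ := h3
      have e1 : s = q * u := congrArg Prod.fst h4
      have e2 : s = v := congrArg Prod.snd h4
      refine ⟨(v : V ⧸ Q), ⟨v, ?_, rfl⟩, ?_⟩
      · rw [← e2]
        exact hs
      · have e3 : (v : V ⧸ Q) = (u : V ⧸ Q) := by
          rw [← e2, e1, QuotientGroup.mk_mul, (QuotientGroup.eq_one_iff q).2 hqq, one_mul]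
        change (((v : V ⧸ Q), (v : V ⧸ Q)) : (V ⧸ Q) × (V ⧸ Q)) = ((u : V ⧸ Q), (v : V ⧸ Q))
        rw [e3]
    · rintro ⟨_, ⟨s, hs, rfl⟩, h2⟩
      have e1 : (s : V ⧸ Q) = (u : V ⧸ Q) := congrArg Prod.fst h2
      have e2 : (s : V ⧸ Q) = (v : V ⧸ Q) := congrArg Prod.snd h2
      have h3 : ((s, s) : V × V) • ω = ω := by
        have h4 : ((s, s) : V × V) ∈ MulAction.stabilizer (V × V) ω := by
          rw [h1]
          exact ⟨s, hs, rfl⟩
        exact h4
      rw [← hsm, ← e1, ← e2, hsm, h3]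

end Pool.Agent.PSS.S5.H70.Nqp
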