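import Pool.Agent.PSS.StmtsS5

/-!
# Squad PSS, row RYN (helper70): a symmetric algebra with one simple module
-/

set_option autoImplicit false

open scoped BigOperators

noncomputable section

namespace Pool.Agent.PSS.S5.H70

variable {F A : Type} [Field F] [Ring A] [Algebra F A]

/-- the element of a functional -/
theorem dualel [FiniteDimensional F A] (lam : A →ₗ[F] F)
    (hn : ∀ a, (∀ b, lam (a * b) = 0) → a = 0) (τ : A →ₗ[F] F) :
    ∃ z : A, ∀ a, lam (z * a) = τ a := by
  let T : A →ₗ[F] (A →ₗ[F] F) := (LinearMap.mul F A).compr₂ lam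
  have hT : ∀ z a, T z a = lam (z * a) := fun z a => rfl
  have hinj : Function.Injective T := by
    rw [← LinearMap.ker_eq_bot, LinearMap.ker_eq_bot']
    intro z hz
    refine hn z fun b => ?_
    rw [← hT, hz]
    rfl
  have hfr : Module.finrank F A = Module.finrank F (A →ₗ[F] F) :=
    (Subspace.dual_finrank_eq (K := F) (V := A)).symm
  obtain ⟨z, hz⟩ := (LinearMap.injective_iff_surjective_of_finrank_eq_finrank hfr).1 hinj τ
  exact ⟨z, fun a => by rw [← hT, hz]⟩

theorem nil_quot [FiniteDimensional F A] (a : A)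
    (h : Ideal.Quotient.mk (Ring.jacobson A) a = 0) : IsNilpotent a := by
  haveI : IsArtinianRing A := IsArtinianRing.of_finite F A
  obtain ⟨N, hN⟩ := IsSemiprimaryRing.isNilpotent (R := A)
  refine ⟨N, ?_⟩
  have h1 : a ∈ Ring.jacobson A := Ideal.Quotient.eq_zero_iff_mem.1 h
  have h2 : a ^ N ∈ (Ring.jacobson A) ^ N := Ideal.pow_mem_pow h1 N
  rw [hN] at h2
  exact h2

theorem ryn : RynStmt := by
  intro F A _ _ _ _ _ _ lam hs hn hz
  haveI : IsArtinianRing A := IsArtinianRing.of_finite F A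
  haveI : FiniteDimensional F (A ⧸ Ring.jacobson A) :=
    Module.Finite.of_surjective (Ideal.Quotient.mkₐ F (Ring.jacobson A)).toLinearMap
      (Ideal.Quotient.mkₐ_surjective F _)
  obtain ⟨m, d, hd, ⟨e⟩⟩ :=
    IsSemisimpleRing.exists_algEquiv_pi_matrix_of_isAlgClosed F (A ⧸ Ring.jacobson A)
  let P : A →ₐ[F] (∀ i, Matrix (Fin (d i)) (Fin (d i)) F) :=
    e.toAlgHom.comp (Ideal.Quotient.mkₐ F (Ring.jacobson A))
  have hPs : Function.Surjective P := e.surjective.comp (Ideal.Quotient.mkₐ_surjective F _)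
  have hPk : ∀ a, P a = 0 → IsNilpotent a := by
    intro a ha
    have h1 : e (Ideal.Quotient.mkₐ F (Ring.jacobson A) a) = 0 := ha
    have h2 : Ideal.Quotient.mkₐ F (Ring.jacobson A) a = 0 := by
      rw [← map_zero e] at h1
      exact e.injective h1
    exact nil_quot (F := F) a h2
  let τ : Fin m → A →ₗ[F] F := fun i =>
    (Matrix.traceLinearMap (Fin (d i)) F F).comp
      ((LinearMap.proj (R := F) (φ := fun i => Matrix (Fin (d i)) (Fin (d i)) F) i).comp
        P.toLinearMap)
  have hτ : ∀ i a, τ i a = Matrix.trace (P a i) := fun i a => rfl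
  have hτc : ∀ i a b, τ i (a * b) = τ i (b * a) := by
    intro i a b
    rw [hτ, hτ, map_mul, map_mul, Pi.mul_apply, Pi.mul_apply, Matrix.trace_mul_comm]
  have hτn : ∀ i a, IsNilpotent a → τ i a = 0 := by
    intro i a ha
    rw [hτ]
    have h1 : IsNilpotent (P a i) := by
      obtain ⟨N, hN⟩ := ha
      refine ⟨N, ?_⟩
      have h2 : (P a ^ N) i = 0 := by
        rw [← map_pow, hN, map_zero]
        rfl
      rw [← h2]
      rfl
    exact (Matrix.isNilpotent_trace_of_isNilpotent h1).eq_zero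
  choose z hzl using fun i => dualel lam hn (τ i)
  have hzc : ∀ i a, z i * a = a * z i := by
    intro i a
    refine sub_eq_zero.1 (hn _ fun b => ?_)
    rw [sub_mul, map_sub, sub_eq_zero, mul_assoc, hzl, mul_assoc a, hs a, mul_assoc, hzl, hτc]
  have hzn : ∀ i n, (∀ a, n * a = a * n) → IsNilpotent n → n * z i = 0 := by
    intro i n hc hnil
    refine hn _ fun b => ?_
    rw [hc, mul_assoc, hzl]
    refine hτn i _ ?_
    exact (show Commute n b from hc b).isNilpotent_mul_right hnil
  have hm : ∀ i j : Fin m, i = j := by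
    intro i j
    by_contra hij
    obtain ⟨s, t, hst, h0⟩ := hz (z i) (z j) (hzc i) (hzc j)
      (fun n hc hnil => ⟨hzn i n hc hnil, hzn j n hc hnil⟩)
    have hlin : ∀ a, s * τ i a + t * τ j a = 0 := by
      intro a
      have h1 : lam ((s • z i + t • z j) * a) = 0 := by
        rw [h0, zero_mul, map_zero]
      rw [add_mul, map_add, smul_mul_assoc, smul_mul_assoc, map_smul, map_smul, hzl, hzl] at h1
      exact h1
    have hex : ∀ k l : Fin m, k ≠ l → ∃ a, τ k a = 1 ∧ τ l a = 0 := by
      intro k l hkl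
      haveI := hd k
      obtain ⟨a, ha⟩ := hPs (Pi.single k (Matrix.single (0 : Fin (d k)) 0 (1 : F)))
      refine ⟨a, ?_, ?_⟩
      · rw [hτ, ha, Pi.single_eq_same, Matrix.trace_single_eq_same]
      · rw [hτ, ha, Pi.single_eq_of_ne (Ne.symm hkl), Matrix.trace_zero]
    obtain ⟨a, ha1, ha2⟩ := hex i j hij
    obtain ⟨b, hb1, hb2⟩ := hex j i (Ne.symm hij)
    have e1 := hlin a
    have e2 := hlin b
    rw [ha1, ha2, mul_one, mul_zero, add_zero] at e1
    rw [hb1, hb2, mul_one, mul_zero, zero_add] at e2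
    rcases hst with h | h
    · exact h e1
    · exact h e2
  have hm0 : 0 < m := by
    rcases Nat.eq_zero_or_pos m with h | h
    · exfalso
      subst h
      have h1 : IsNilpotent (1 : A) := hPk 1 (funext fun i => i.elim0)
      obtain ⟨N, hN⟩ := h1
      rw [one_pow] at hN
      exact one_ne_zero hN
    · exact h
  let i0 : Fin m := ⟨0, hm0⟩
  refine ⟨d i0, (Pi.evalAlgHom F (fun i => Matrix (Fin (d i)) (Fin (d i)) F) i0).comp P,
    Nat.pos_of_ne_zero (hd i0).out, ?_, ?_⟩
  · intro y
    obtain ⟨a, ha⟩ := hPs (Pi.single i0 y)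
    refine ⟨a, ?_⟩
    show P a i0 = y
    rw [ha, Pi.single_eq_same]
  · intro a ha
    refine hPk a (funext fun i => ?_)
    rw [hm i i0]
    exact ha

end Pool.Agent.PSS.S5.H70
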